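import Pool.Agent.Helper86.Poly.Goals

set_option autoImplicit false

namespace Pool.Agent.Helper34.Poly

open MeasureTheory Set Pool.Agent.Helper86.Poly
open scoped Pointwise

namespace PkMX1

lemma interior_of_vol_pos {d : ℕ} (K : Set (E d)) (hK : Convex ℝ K) (h : 0 < volume K) :
    (interior K).Nonempty := by
  by_contra hne
  rw [Set.not_nonempty_iff_eq_empty] at hne
  have h1 : volume (frontier K) = 0 := hK.addHaar_frontier volume
  have h2 : K ⊆ frontier K := by
    rw [frontier, hne, Set.sdiff_empty]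
    exact subset_closure
  exact absurd (measure_mono_null h2 h1) h.ne'

/-- a small simplex -/
lemma exists_pos (d n : ℕ) (hn : d + 1 ≤ n) : ∃ q : Fin n → E d, (∀ i j, dist (q i) (q j) ≤ 1) ∧
    0 < volume (convexHull ℝ (range q)) := by
  classical
  let q : Fin n → E d := fun i => if h : 1 ≤ (i : ℕ) ∧ (i : ℕ) ≤ d then
    (1 / 2 : ℝ) • EuclideanSpace.single (⟨(i : ℕ) - 1, by omega⟩ : Fin d) (1 : ℝ) else 0
  have hq : ∀ i, ‖q i‖ ≤ 1 / 2 := by
    intro i
    by_cases h : 1 ≤ (i : ℕ) ∧ (i : ℕ) ≤ d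
    · simp only [q, h, and_self, dif_pos]
      rw [norm_smul, EuclideanSpace.norm_single]
      norm_num
    · simp only [q, dif_neg h]
      norm_num
  refine ⟨q, ?_, ?_⟩
  · intro i j
    calc dist (q i) (q j) ≤ ‖q i‖ + ‖q j‖ := by rw [dist_eq_norm]; exact norm_sub_le _ _
      _ ≤ 1 := by linarith [hq i, hq j]
  · apply Measure.measure_pos_of_nonempty_interior
    rw [interior_convexHull_nonempty_iff_affineSpan_eq_top]
    have h0 : (0 : E d) ∈ range q := ⟨⟨0, by omega⟩, by simp [q]⟩
    rw [AffineSubspace.affineSpan_eq_top_iff_vectorSpan_eq_top_of_nonempty ℝ (E d) (E d) ⟨0, h0⟩,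
      vectorSpan_eq_span_vsub_set_right ℝ h0]
    rw [eq_top_iff, ← (EuclideanSpace.basisFun (Fin d) ℝ).toBasis.span_eq]
    rw [Submodule.span_le]
    rintro _ ⟨i, rfl⟩
    have h1 : ((1 / 2 : ℝ) • EuclideanSpace.single i (1 : ℝ) : E d) ∈
        Submodule.span ℝ ((fun x => x -ᵥ (0 : E d)) '' range q) := by
      apply Submodule.subset_span
      refine ⟨(1 / 2 : ℝ) • EuclideanSpace.single i (1 : ℝ), ⟨⟨(i : ℕ) + 1, by omega⟩, ?_⟩, by simp⟩
      have : 1 ≤ (i : ℕ) + 1 ∧ (i : ℕ) + 1 ≤ d := ⟨by omega, i.2⟩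
      simp only [q, this, and_self, dif_pos]
      rfl
    have h2 := Submodule.smul_mem _ (2 : ℝ) h1
    rw [smul_smul] at h2
    norm_num at h2
    simpa using h2

lemma vol_lt_top {d n : ℕ} (p : Fin n → E d) : volume (convexHull ℝ (range p)) < ⊤ :=
  ((Set.finite_range p).isCompact_convexHull (𝕜 := ℝ)).measure_lt_top

lemma mx_pos {d n : ℕ} (p : Fin n → E d) (hn : d + 1 ≤ n) (hp : Mx d n p) :
    0 < volume (convexHull ℝ (range p)) := by
  obtain ⟨q, hq, hq2⟩ := exists_pos d n hn
  exact lt_of_lt_of_le hq2 (hp.2 q hq)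

lemma mx_int {d n : ℕ} (p : Fin n → E d) (hn : d + 1 ≤ n) (hp : Mx d n p) :
    (interior (convexHull ℝ (range p))).Nonempty :=
  interior_of_vol_pos _ (convex_convexHull ℝ _) (mx_pos p hn hp)

lemma mx_lt (h2 : G_AUG) (h3 : G_STR) {d n : ℕ} (hd : 2 ≤ d) (p : Fin n → E d) (hn : d + 1 ≤ n)
    (hp : Mx d n p) (q : Fin (n + 1) → E d) (hq : Mx d (n + 1) q) :
    volume (convexHull ℝ (range p)) < volume (convexHull ℝ (range q)) := by
  have hint := mx_int p hn hp
  obtain ⟨w, hw1, hw2⟩ := h2 d n p hd hp.1 hint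
  have hcomp : IsCompact (convexHull ℝ (range p)) :=
    (Set.finite_range p).isCompact_convexHull (𝕜 := ℝ)
  have hlt := h3 d (convexHull ℝ (range p)) w hcomp (convex_convexHull ℝ _) hint hw1
  refine lt_of_lt_of_le hlt ?_
  let r : Fin (n + 1) → E d := Fin.snoc p w
  have hr1 : ∀ i : Fin n, r i.castSucc = p i := fun i => by simp [r]
  have hr2 : r (Fin.last n) = w := by simp [r]
  have hr : ∀ i j, dist (r i) (r j) ≤ 1 := by
    intro i j
    induction i using Fin.lastCases with
    | last =>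
      induction j using Fin.lastCases with
      | last => simp
      | cast j => rw [hr1, hr2]; exact hw2 j
    | cast i =>
      induction j using Fin.lastCases with
      | last => rw [hr1, hr2, dist_comm]; exact hw2 i
      | cast j => rw [hr1, hr1]; exact hp.1 i j
  refine le_trans (measure_mono ?_) (hq.2 r hr)
  apply convexHull_min _ (convex_convexHull ℝ _)
  rw [Set.insert_subset_iff]
  constructor
  · exact subset_convexHull ℝ _ ⟨Fin.last n, hr2⟩
  · apply convexHull_mono
    rintro _ ⟨i, rfl⟩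
    exact ⟨i.castSucc, hr1 i⟩

/-- the hull of `d` points has empty interior -/
lemma few {d : ℕ} (hd : 2 ≤ d) (q : Fin d → E d) : ¬ (interior (convexHull ℝ (range q))).Nonempty := by
  intro h
  rw [interior_convexHull_nonempty_iff_affineSpan_eq_top] at h
  have : Nonempty (Fin d) := ⟨⟨0, by omega⟩⟩
  have h1 : vectorSpan ℝ (range q) = ⊤ :=
    AffineSubspace.vectorSpan_eq_top_of_affineSpan_eq_top ℝ (E d) (E d) h
  have h2 := finrank_vectorSpan_range_le ℝ q (n := d - 1) (by rw [Fintype.card_fin]; omega)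
  rw [h1, finrank_top, finrank_euclideanSpace, Fintype.card_fin] at h2
  omega

lemma notMem (h1 : G_MAX) (h2 : G_AUG) (h3 : G_STR) {d n : ℕ} (hd : 2 ≤ d) (p : Fin n → E d)
    (hn : d + 1 ≤ n) (hp : Mx d n p) (i : Fin n) : p i ∉ convexHull ℝ (p '' {i}ᶜ) := by
  intro hi
  obtain ⟨m, rfl⟩ : ∃ m, n = m + 1 := ⟨n - 1, by omega⟩
  let q : Fin m → E d := fun j => p (i.succAbove j)
  have hrq : range q = p '' {i}ᶜ := by
    rw [← Fin.range_succAbove i, ← Set.range_comp]
    rfl
  have hsub : convexHull ℝ (range p) ⊆ convexHull ℝ (range q) := by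
    apply convexHull_min _ (convex_convexHull ℝ _)
    rintro _ ⟨j, rfl⟩
    by_cases hj : j = i
    · rw [hj, hrq]; exact hi
    · rw [hrq]
      exact subset_convexHull ℝ _ ⟨j, hj, rfl⟩
  have hint := mx_int p hn hp
  rcases Nat.lt_or_ge d m with hm | hm
  · obtain ⟨p', hp'1, hp'2⟩ := h1 d m (by omega)
    have hlt := mx_lt h2 h3 hd p' (by omega) ⟨hp'1, hp'2⟩ p hp
    have hle := hp'2 q (fun a b => hp.1 _ _)
    exact absurd (lt_of_lt_of_le hlt ((measure_mono hsub).trans hle)) (lt_irrefl _)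
  · have hmd : m = d := by omega
    subst hmd
    exact few hd q (hint.mono (interior_mono hsub))

theorem thm (h1 : G_MAX) (h2 : G_AUG) (h3 : G_STR) : G_MX1 := by
  intro d n p hd hn hp
  refine ⟨?_, fun q hq => mx_lt h2 h3 hd p hn hp q hq⟩
  have hint := mx_int p hn hp
  have hcomp : IsCompact (convexHull ℝ (range p)) :=
    (Set.finite_range p).isCompact_convexHull (𝕜 := ℝ)
  have hnm := notMem h1 h2 h3 hd p hn hp
  have hinj : Function.Injective p := by
    intro i j hij
    by_contra hne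
    apply hnm i
    rw [hij]
    exact subset_convexHull ℝ _ ⟨j, fun h => hne (by simpa using h.symm), rfl⟩
  have hext : (convexHull ℝ (range p)).extremePoints ℝ = range p := by
    apply Set.Subset.antisymm extremePoints_convexHull_subset
    rintro _ ⟨i, rfl⟩
    by_contra hni
    apply hnm i
    have hsub : (convexHull ℝ (range p)).extremePoints ℝ ⊆ p '' {i}ᶜ := by
      intro x hx
      obtain ⟨j, rfl⟩ := extremePoints_convexHull_subset hx
      refine ⟨j, ?_, rfl⟩
      intro hj
      rw [Set.mem_singleton_iff] at hj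
      rw [hj] at hx
      exact hni hx
    have hKM := closure_convexHull_extremePoints hcomp (convex_convexHull ℝ _)
    have hcl : IsClosed (convexHull ℝ (p '' {i}ᶜ)) :=
      ((Set.toFinite (p '' {i}ᶜ)).isCompact_convexHull (𝕜 := ℝ)).isClosed
    have hle : convexHull ℝ (range p) ⊆ convexHull ℝ (p '' {i}ᶜ) := by
      rw [← hKM]
      exact closure_minimal (convexHull_mono hsub) hcl
    exact hle (subset_convexHull ℝ _ ⟨i, rfl⟩)
  refine ⟨⟨range p, Set.finite_range p, rfl⟩, hint, ?_, ?_⟩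
  · rw [hext, ← Set.image_univ, Set.ncard_image_of_injective _ hinj, Set.ncard_univ,
      Nat.card_eq_fintype_card, Fintype.card_fin]
  · rw [convexHull_diam]
    have hbdd : Bornology.IsBounded (range p) := (Set.finite_range p).isBounded
    have hD1 : Metric.diam (range p) ≤ 1 := by
      apply Metric.diam_le_of_forall_dist_le zero_le_one
      rintro _ ⟨i, rfl⟩ _ ⟨j, rfl⟩
      exact hp.1 i j
    have hD0 : 0 < Metric.diam (range p) := by
      have h01 : p ⟨0, by omega⟩ ≠ p ⟨1, by omega⟩ := by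
        intro h
        have := hinj h
        simp at this
      exact lt_of_lt_of_le (dist_pos.mpr h01)
        (Metric.dist_le_diam_of_mem hbdd ⟨_, rfl⟩ ⟨_, rfl⟩)
    by_contra hne
    have hD : Metric.diam (range p) < 1 := lt_of_le_of_ne hD1 hne
    set D := Metric.diam (range p) with hDdef
    let q : Fin n → E d := fun i => D⁻¹ • p i
    have hq : ∀ i j, dist (q i) (q j) ≤ 1 := by
      intro i j
      simp only [q]
      rw [dist_smul₀, Real.norm_eq_abs, abs_of_pos (inv_pos.mpr hD0), ← div_eq_inv_mul,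
        div_le_one hD0]
      exact Metric.dist_le_diam_of_mem hbdd ⟨_, rfl⟩ ⟨_, rfl⟩
    have hrange : range q = (D⁻¹ : ℝ) • range p := by
      ext x
      constructor
      · rintro ⟨i, rfl⟩
        exact ⟨p i, ⟨i, rfl⟩, rfl⟩
      · rintro ⟨_, ⟨i, rfl⟩, rfl⟩
        exact ⟨i, rfl⟩
    have hvol : volume (convexHull ℝ (range q)) =
        ENNReal.ofReal (D⁻¹ ^ d) * volume (convexHull ℝ (range p)) := by
      rw [hrange, convexHull_smul, Measure.addHaar_smul, finrank_euclideanSpace, Fintype.card_fin,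
        abs_of_pos (pow_pos (inv_pos.mpr hD0) d)]
    have hle := hp.2 q hq
    rw [hvol] at hle
    have hpos := mx_pos p hn hp
    have hgt : (1 : ENNReal) < ENNReal.ofReal (D⁻¹ ^ d) := by
      rw [← ENNReal.ofReal_one]
      apply (ENNReal.ofReal_lt_ofReal_iff (pow_pos (inv_pos.mpr hD0) d)).mpr
      apply one_lt_pow₀ _ (by omega)
      exact (one_lt_inv₀ hD0).mpr hD
    have hlt : 1 * volume (convexHull ℝ (range p)) <
        ENNReal.ofReal (D⁻¹ ^ d) * volume (convexHull ℝ (range p)) :=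
      (ENNReal.mul_lt_mul_iff_left hpos.ne' (vol_lt_top p).ne).mpr hgt
    rw [one_mul] at hlt
    exact absurd (lt_of_lt_of_le hlt hle) (lt_irrefl _)

end PkMX1

end Pool.Agent.Helper34.Poly
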